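import Mathlib
import Pool.Agent.P.MP_08c3d6_an.Six

/-!
`MP_08c3d6_an`: Q1 for `k = 6`, every dimension `n` and every `r`.
-/

set_option autoImplicit false

namespace Pool.Agent.Results.MP_08c3d6_an.KSix

theorem result {E : Type} [NormedAddCommGroup E] [InnerProductSpace ℂ E] [FiniteDimensional ℂ E]
    (n : ℕ) (hn : Module.finrank ℂ E = n) (A B : E →ₗ[ℂ] E)
    (hA : A.IsSymmetric) (hB : B.IsSymmetric) (r : ℕ) (hr : r ≤ n) :
    ∑ j ∈ Finset.univ.filter (fun j : Fin n => (j : ℕ) < r),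
        ((hA.add hB).pow 6).eigenvalues hn j ≤
      ∑ j ∈ Finset.range r,
        (∑ i ∈ Finset.range (6 + 1), (Nat.choose 6 i) • (A ^ i * B ^ (6 - i))).singularValues j :=
  Pool.Agent.P.MP_08c3d6_an.six hn hA hB r hr

end Pool.Agent.Results.MP_08c3d6_an.KSix
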