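import Mathlib
import Pool.Agent.P.MP_08c3d6_an.Main

/-!
`MP_08c3d6_an`: the case `r = 1` of Q1 for every `k`, and an averaged Ky Fan inequality for all `r`.
-/

set_option autoImplicit false

namespace Pool.Agent.Results.MP_08c3d6_an.OperatorNormAndMeans

theorem result {E : Type} [NormedAddCommGroup E] [InnerProductSpace ℂ E] [FiniteDimensional ℂ E]
    (n : ℕ) (hn : Module.finrank ℂ E = n) (A B : E →ₗ[ℂ] E)
    (hA : A.IsSymmetric) (hB : B.IsSymmetric) (k : ℕ) (hk : 1 ≤ k) :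
    (∀ l : Fin n, |((hA.add hB).pow k).eigenvalues hn l| ≤
      (∑ i ∈ Finset.range (k + 1), (k.choose i) • (A ^ i * B ^ (k - i))).singularValues 0) ∧
    (∀ J : Finset (Fin n), |∑ j ∈ J, (hA.add hB).eigenvalues hn j| ^ k ≤
      (J.card : ℝ) ^ (k - 1) * ∑ j ∈ Finset.range J.card,
        (∑ i ∈ Finset.range (k + 1), (k.choose i) • (A ^ i * B ^ (k - i))).singularValues j) :=
  ⟨fun l => Pool.Agent.P.MP_08c3d6_an.top hn A B hA hB k hk l,
    fun J => Pool.Agent.P.MP_08c3d6_an.main hn A B hA hB k hk J⟩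

end Pool.Agent.Results.MP_08c3d6_an.OperatorNormAndMeans
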